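import Pool.Agent.R839.QuatPert

/-!
# Stably bounded structured quaternion systems have definite root subspaces

Let `φ` be a nonstandard involution of the real quaternions `ℍ`, `l ≥ 1`, and let
`A_0, …, A_l` be `n × n` quaternion matrices with `A_l` invertible, `A_k` `φ`-hermitian for even `k`
and `φ`-skewhermitian for odd `k`.  If the system `∑ A_k x^{(k)}(t) = 0` is stably bounded (within
the systems with the same structure), then every root subspace of the block companion matrix `C` is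
`(G, φ)`-definite: `x_φ G x ≠ 0` for every nonzero `x` in it.
-/

namespace Pool.Agent.Results.MP_87a692_al.DefiniteRootSubspaces

open Quaternion Matrix Pool.Agent.R839.Quat

theorem norm_sq_split (α : ℍ[ℝ]) : ‖α‖ ^ 2 = α.re ^ 2 + ‖α.im‖ ^ 2 := by
  rw [sq, sq ‖α.im‖, ← Quaternion.normSq_eq_norm_mul_self, ← Quaternion.normSq_eq_norm_mul_self,
    Quaternion.normSq_def', Quaternion.normSq_def']
  simp
  ring

/-- **Stable boundedness forces definite root subspaces.**  Let `φ` be a nonstandard involution of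
the quaternions, `l ≥ 1`, and let the coefficients `A_0, …, A_l` satisfy hypothesis (B).  If the
system is stably bounded then for every eigenvalue `α` of the companion matrix `C` and every nonzero
vector `x` of its root subspace `ker p(C)^{ln}`, one has `x_φ G x ≠ 0`. -/
theorem result (φ : ℍ[ℝ] →ₗ[ℝ] ℍ[ℝ]) (hφ : IsInv φ) (l n : ℕ) (hl : 1 ≤ l)
    (A : ℕ → Matrix (Fin n) (Fin n) ℍ[ℝ]) (hB : HypB φ l A) (hS : StablyBounded φ l A)
    (α : ℍ[ℝ]) (hα : ∃ y : Fin l × Fin n → ℍ[ℝ], y ≠ 0 ∧ companion l A *ᵥ y = fun p => y p * α)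
    (x : Fin l × Fin n → ℍ[ℝ]) (hx : charFactor (companion l A) α ^ (l * n) *ᵥ x = 0)
    (hx0 : x ≠ 0) : form φ (gram l A) x x ≠ 0 := by
  intro hform
  obtain ⟨b, hb0, hb2, hb⟩ := exists_b hφ
  obtain ⟨u, hu2, hub, hu⟩ := exists_u hφ hb0 hb2 hb
  have hbd : Bounded l A := by
    obtain ⟨ε, hε, hS'⟩ := hS
    exact hS' A hB (fun k _ i j => by rw [sub_self, norm_zero]; exact hε)
  set C := companion l A with hC
  let E := Module.End ℝ (Fin l × Fin n → ℍ[ℝ])
  have hxP : ((toE (charFactor C α)) ^ (l * n)) x = 0 := by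
    rw [← map_pow]; exact hx
  by_cases him : α.im = 0
  · have hcf : charFactor C α = C - α.re • (1 : Matrix _ _ ℍ[ℝ]) := by
      rw [charFactor, if_pos him]
    have hP : toE (charFactor C α) = (toE C - Rr ((α.re : ℝ) : ℍ[ℝ]) : E) := by
      rw [hcf, map_sub, toE_smul, map_one, Rr_real]
    rw [hP] at hxP
    obtain ⟨y, hy0, hy⟩ := pow_ker _ _ hxP hx0
    have hy' : C *ᵥ y = fun p => y p * ((α.re : ℝ) : ℍ[ℝ]) := sub_eq_zero.mp hy
    have hre : α.re = 0 := by
      have := F1 hbd hB.unit hl _ y hy0 hy'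
      rwa [Quaternion.re_coe] at this
    rw [hre] at hxP
    have hx1 := pow_ker2 _ (fun y => F2 hbd hB.unit hl _ y) _ hxP
    have hx2 : C *ᵥ x = fun p => x p * ((0 : ℝ) • b) := by
      have : C *ᵥ x = fun p => x p * ((0 : ℝ) : ℍ[ℝ]) := sub_eq_zero.mp hx1
      rw [this]
      funext p
      simp
    obtain ⟨e1, e2, e3⟩ := eig_struct hB.unit hl _ x hx2
    have hexp := form_expand hφ hB hb (phi_smul_b hb 0) (smul_b_comm 0 b) (bl x 0) 0 x (by
      intro i hi
      rw [e1 i hi]
      funext a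
      simp)
    have hz : ∀ k, form φ (A k) (0 : Fin n → ℍ[ℝ]) 0 = 0 := by
      intro k; simp [form]
    have hz' : ∀ k, form φ (A k) (bl x 0) (0 : Fin n → ℍ[ℝ]) = 0 := by
      intro k; simp [form]
    have hT0 : ∀ k, T ((0 : ℝ) • b) b k 0 = 0 := by
      intro k; simp [T]
    simp only [hz, hz', hT0, mul_zero, add_zero, sub_zero] at hexp
    rw [hform, zero_mul, map_zero, neg_zero] at hexp
    exact no_isotropic hφ hB hl hS hb0 hb2 hb hu2 hub hu (bl x 0) (e3 hx0) e2 hexp.symm
  · have hc : ‖α.im‖ ≠ 0 := norm_ne_zero_iff.mpr him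
    set c := ‖α.im‖ with hcdef
    have hcf : charFactor C α = C ^ 2 - (2 * α.re) • C + (‖α‖ ^ 2) • (1 : Matrix _ _ ℍ[ℝ]) := by
      rw [charFactor, if_neg him]
    have hP : toE (charFactor C α) = (toE C * toE C - (2 * α.re) • toE C +
        (α.re ^ 2 + c ^ 2) • (1 : E) : E) := by
      rw [hcf, map_add, map_sub, map_pow, toE_smul, toE_smul, map_one, norm_sq_split, sq (toE C)]
    set μ : ℍ[ℝ] := (α.re : ℍ[ℝ]) + c • b with hμ
    set μ' : ℍ[ℝ] := (α.re : ℍ[ℝ]) - c • b with hμ'
    have hprod : μ' * μ = ((α.re ^ 2 + c ^ 2 : ℝ) : ℍ[ℝ]) := by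
      have e : (c * c) • (1 : ℍ[ℝ]) = ((c * c : ℝ) : ℍ[ℝ]) := by
        rw [← Quaternion.coe_mul_eq_smul, mul_one]
      rw [hμ, hμ', sub_mul, mul_add, mul_add, smul_mul_smul_comm, hb2,
        Quaternion.coe_commutes α.re (c • b), ← Quaternion.coe_mul, smul_neg, e,
        Quaternion.coe_add, sq, sq]
      abel
    have hfac : (toE C * toE C - (2 * α.re) • toE C + (α.re ^ 2 + c ^ 2) • (1 : E) : E) =
        ((toE C - Rr μ) * (toE C - Rr μ') : E) := by
      have h1 : (Rr μ * Rr μ' : E) = (α.re ^ 2 + c ^ 2) • (1 : E) := by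
        rw [Rr_mul, hprod, Rr_real]
      have h2 : (Rr μ' + Rr μ : E) = (2 * α.re) • (1 : E) := by
        rw [← Rr_add, ← Rr_real]
        congr 1
        rw [hμ, hμ', two_mul, Quaternion.coe_add]; abel
      have h3 : toE C * (Rr μ' : E) = Rr μ' * toE C := toE_Rr C μ'
      rw [sub_mul, mul_sub, mul_sub, h1, h3]
      have h4 : (2 * α.re) • (toE C : E) = Rr μ' * toE C + Rr μ * toE C := by
        rw [← add_mul, h2, smul_mul_assoc, one_mul]
      rw [h4]; abel
    obtain ⟨y, hy0, hy⟩ := pow_ker _ _ hxP hx0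
    rw [hP, hfac, Module.End.mul_apply] at hy
    have hre : α.re = 0 := by
      have hμre : μ.re = α.re := by
        simp [hμ, hb0]
      have hμ're : μ'.re = α.re := by
        simp [hμ', hb0]
      by_cases hz : (toE C - Rr μ' : E) y = 0
      · have hy' : C *ᵥ y = fun p => y p * μ' := sub_eq_zero.mp hz
        have := F1 hbd hB.unit hl _ y hy0 hy'
        rwa [hμ're] at this
      · have hy' : C *ᵥ ((toE C - Rr μ' : E) y) = fun p => ((toE C - Rr μ' : E) y) p * μ :=
          sub_eq_zero.mp hy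
        have := F1 hbd hB.unit hl _ _ hz hy'
        rwa [hμre] at this
    have hP' : toE (charFactor C α) = (toE C * toE C + (c ^ 2) • (1 : E) : E) := by
      rw [hP, hre]
      simp
    rw [hP'] at hxP
    have hLL : (Rr (c • b) * Rr (c • b) : E) = -(c ^ 2) • 1 := by
      rw [Rr_mul, smul_mul_smul_comm, hb2]
      have : (c * c) • (-1 : ℍ[ℝ]) = ((-(c ^ 2) : ℝ) : ℍ[ℝ]) := by
        rw [Quaternion.coe_neg, smul_neg, ← Quaternion.coe_mul_eq_smul, mul_one, sq]
      rw [this, Rr_real]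
    have hplus : (toE C + Rr (c • b) : E) = toE C - Rr (-(c • b)) := by
      have : (Rr (-(c • b)) : E) = -Rr (c • b) := by
        rw [eq_neg_iff_add_eq_zero, ← Rr_add]
        apply LinearMap.ext
        intro z
        funext i
        simp [Rr_apply]
      rw [this, sub_neg_eq_add]
    have hss : ∀ y, (toE C * toE C + (c ^ 2) • (1 : E) : E)
        ((toE C * toE C + (c ^ 2) • (1 : E) : E) y) = 0 →
        (toE C * toE C + (c ^ 2) • (1 : E) : E) y = 0 := by
      intro y hy
      refine semisimple_nonreal (toE C) (Rr (c • b)) (toE_Rr C _) hc hLL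
        (fun y => F2 hbd hB.unit hl _ y) ?_ hy
      intro y
      rw [hplus]
      exact F2 hbd hB.unit hl _ y
    have hx1 := pow_ker2 _ hss _ hxP
    have hx2 : C *ᵥ (C *ᵥ x) = fun p => -(c ^ 2) • x p := by
      have : C *ᵥ (C *ᵥ x) + (c ^ 2) • x = 0 := hx1
      rw [eq_neg_of_add_eq_zero_left this]
      funext p
      simp
    obtain ⟨v, hv0, hv, hg⟩ := isotropic hφ hB hl hc hb2 hb hu2 hub hu x hx0 hx2 hform
    exact no_isotropic hφ hB hl hS hb0 hb2 hb hu2 hub hu v hv0 hv hg

end Pool.Agent.Results.MP_87a692_al.DefiniteRootSubspaces
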